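import Pool.Agent.Helper99.ML.Stm

set_option autoImplicit false

namespace Pool.Agent.Helper43.ML

open Set

/-- an inverse Hölder estimate on `[0, 1)` bounds the dimension of the image from below -/
theorem dim_of_inv_holder (s C : ℝ) (hs : 0 < s) (hC : 0 ≤ C) (G : ℝ → ℝ)
    (hb : ∀ y ∈ Ico (0 : ℝ) 1, ∀ z ∈ Ico (0 : ℝ) 1, |y - z| ≤ C * |G y - G z| ^ s) :
    ENNReal.ofReal s ≤ dimH (G '' Ico (0 : ℝ) 1) := by
  classical
  set σ : NNReal := s.toNNReal with hσd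
  have hσs : (σ : ℝ) = s := Real.coe_toNNReal _ hs.le
  have hσ : 0 < σ := by rw [← NNReal.coe_pos, hσs]; exact hs
  have hσ' : (0 : ℝ) < σ := hσ
  set F : ℝ → ℝ := Function.invFunOn G (Ico (0 : ℝ) 1) with hF
  set D : NNReal := C.toNNReal with hD
  have hinj : InjOn G (Ico (0 : ℝ) 1) := by
    intro t ht u hu h
    have h1 := hb t ht u hu
    have h2 : G t - G u = 0 := by rw [h]; ring
    rw [h2, abs_zero, Real.zero_rpow hs.ne', mul_zero] at h1
    have h7 : t - u = 0 := abs_eq_zero.mp (le_antisymm h1 (abs_nonneg _))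
    linarith
  have hFG : ∀ t ∈ Ico (0 : ℝ) 1, F (G t) = t := fun t ht => hinj.leftInvOn_invFunOn ht
  have hhol : HolderOnWith D σ F (G '' Ico (0 : ℝ) 1) := by
    rintro _ ⟨t, ht, rfl⟩ _ ⟨u, hu, rfl⟩
    rw [hFG t ht, hFG u hu]
    have h1 := hb t ht u hu
    rw [edist_dist, edist_dist, Real.dist_eq, Real.dist_eq]
    have h2 : ENNReal.ofReal |t - u| ≤ ENNReal.ofReal (C * |G t - G u| ^ (σ : ℝ)) := by
      rw [hσs]; exact ENNReal.ofReal_le_ofReal h1
    refine h2.trans (le_of_eq ?_)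
    rw [ENNReal.ofReal_mul hC, ENNReal.ofReal_rpow_of_nonneg (abs_nonneg _) hσ'.le]
    rfl
  have himg : F '' (G '' Ico (0 : ℝ) 1) = Ico (0 : ℝ) 1 := by
    rw [Set.image_image]
    ext t
    constructor
    · rintro ⟨u, hu, rfl⟩
      change F (G u) ∈ Ico (0 : ℝ) 1
      rw [hFG u hu]; exact hu
    · intro ht
      exact ⟨t, ht, hFG t ht⟩
  have h1 := hhol.dimH_image_le hσ
  rw [himg] at h1
  have h2 : dimH (Ico (0 : ℝ) 1) = 1 := by
    have := Real.dimH_of_nonempty_interior (s := Ico (0 : ℝ) 1) (by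
      rw [interior_Ico]
      exact ⟨1 / 2, by norm_num, by norm_num⟩)
    simpa using this
  rw [h2] at h1
  rw [ENNReal.le_div_iff_mul_le (Or.inl (by exact_mod_cast hσ.ne')) (Or.inl ENNReal.coe_ne_top),
    one_mul] at h1
  exact h1

/-- **PIECE DIM** -/
theorem t_DIM : Pool.Agent.Helper99.ML.S_DIM := by
  classical
  intro s A hs hs1 hA Q a₀ b₀ w₀ hw₀ hab₀ hQ0 hstep E hE
  choose! M l r g hM using hstep
  -- the state: left end, right end, weight, coordinate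
  let nxt : ℕ → (ℝ × ℝ × ℝ × ℝ) → (ℝ × ℝ × ℝ × ℝ) := fun i p =>
    (l i p.1 p.2.1 p.2.2.1 ⌊(M i p.1 p.2.1 p.2.2.1 : ℝ) * p.2.2.2⌋₊,
     r i p.1 p.2.1 p.2.2.1 ⌊(M i p.1 p.2.1 p.2.2.1 : ℝ) * p.2.2.2⌋₊,
     p.2.2.1 / (M i p.1 p.2.1 p.2.2.1 : ℝ),
     (M i p.1 p.2.1 p.2.2.1 : ℝ) * p.2.2.2 -
       (⌊(M i p.1 p.2.1 p.2.2.1 : ℝ) * p.2.2.2⌋₊ : ℝ))
  let S : ℝ → ℕ → (ℝ × ℝ × ℝ × ℝ) := fun y i => Nat.rec (a₀, b₀, w₀, y) (fun i p => nxt i p) i
  have S0 : ∀ y, S y 0 = (a₀, b₀, w₀, y) := fun y => rfl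
  have SS : ∀ y i, S y (i + 1) = nxt i (S y i) := fun y i => rfl
  let m : ℝ → ℕ → ℕ := fun y i => M i (S y i).1 (S y i).2.1 (S y i).2.2.1
  let dg : ℝ → ℕ → ℕ := fun y i => ⌊(m y i : ℝ) * (S y i).2.2.2⌋₊
  -- invariants
  have inv : ∀ y ∈ Ico (0 : ℝ) 1, ∀ i, Q i (S y i).1 (S y i).2.1 (S y i).2.2.1 ∧
      0 < (S y i).2.2.1 ∧ (S y i).1 < (S y i).2.1 ∧ (S y i).2.2.2 ∈ Ico (0 : ℝ) 1 := by
    intro y hy i
    induction i with
    | zero => exact ⟨hQ0, hw₀, hab₀, hy⟩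
    | succ i ih =>
      obtain ⟨h1, h2, h3, h4⟩ := ih
      obtain ⟨k1, k2, k3, k4, k5⟩ := hM i _ _ _ h1 h2
      have hMp : (0 : ℝ) < (M i (S y i).1 (S y i).2.1 (S y i).2.2.1 : ℝ) := by
        exact_mod_cast (by omega : 0 < M i (S y i).1 (S y i).2.1 (S y i).2.2.1)
      have hx0 : 0 ≤ (M i (S y i).1 (S y i).2.1 (S y i).2.2.1 : ℝ) * (S y i).2.2.2 :=
        mul_nonneg hMp.le h4.1
      have hx1 : (M i (S y i).1 (S y i).2.1 (S y i).2.2.1 : ℝ) * (S y i).2.2.2 <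
          (M i (S y i).1 (S y i).2.1 (S y i).2.2.1 : ℝ) := by
        have := mul_lt_mul_of_pos_left h4.2 hMp
        linarith
      have hd : ⌊(M i (S y i).1 (S y i).2.1 (S y i).2.2.1 : ℝ) * (S y i).2.2.2⌋₊ <
          M i (S y i).1 (S y i).2.1 (S y i).2.2.1 := (Nat.floor_lt hx0).2 hx1
      obtain ⟨q1, q2, q3, q4⟩ := k3 _ hd
      refine ⟨q4, div_pos h2 hMp, q2, ?_, ?_⟩
      · have := Nat.floor_le hx0
        change 0 ≤ (M i (S y i).1 (S y i).2.1 (S y i).2.2.1 : ℝ) * (S y i).2.2.2 - _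
        linarith
      · have := Nat.lt_floor_add_one ((M i (S y i).1 (S y i).2.1 (S y i).2.2.1 : ℝ) *
          (S y i).2.2.2)
        change (M i (S y i).1 (S y i).2.1 (S y i).2.2.1 : ℝ) * (S y i).2.2.2 - _ < 1
        linarith
  have hdlt : ∀ y ∈ Ico (0 : ℝ) 1, ∀ i, dg y i < m y i := by
    intro y hy i
    obtain ⟨h1, h2, h3, h4⟩ := inv y hy i
    obtain ⟨k1, k2, k3, k4, k5⟩ := hM i _ _ _ h1 h2
    have hMp : (0 : ℝ) < (m y i : ℝ) := Nat.cast_pos.2 (lt_of_lt_of_le Nat.zero_lt_two k1)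
    refine (Nat.floor_lt (mul_nonneg hMp.le h4.1)).2 ?_
    have := mul_lt_mul_of_pos_left h4.2 hMp
    linarith
  have nest : ∀ y ∈ Ico (0 : ℝ) 1, ∀ i, (S y i).1 < (S y (i + 1)).1 ∧
      (S y (i + 1)).2.1 < (S y i).2.1 := by
    intro y hy i
    obtain ⟨h1, h2, h3, h4⟩ := inv y hy i
    obtain ⟨k1, k2, k3, k4, k5⟩ := hM i _ _ _ h1 h2
    obtain ⟨q1, q2, q3, q4⟩ := k3 _ (hdlt y hy i)
    exact ⟨q1, q3⟩
  -- the limit point
  let α : ℝ → ℝ := fun y => ⨆ i, (S y i).1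
  have hα : ∀ y ∈ Ico (0 : ℝ) 1, ∀ i, (S y i).1 ≤ α y ∧ α y ≤ (S y i).2.1 := by
    intro y hy i
    have h1 : Monotone fun i => (S y i).1 := monotone_nat_of_le_succ fun i => (nest y hy i).1.le
    have h2 : Antitone fun i => (S y i).2.1 := antitone_nat_of_succ_le fun i => (nest y hy i).2.le
    have h3 : (fun i => (S y i).1) ≤ fun i => (S y i).2.1 := fun i => (inv y hy i).2.2.1.le
    have h4 := Monotone.ciSup_mem_iInter_Icc_of_antitone h1 h2 h3
    have h5 := Set.mem_iInter.1 h4 i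
    exact ⟨h5.1, h5.2⟩
  have hαE : α '' Ico (0 : ℝ) 1 ⊆ E := by
    rintro _ ⟨y, hy, rfl⟩
    refine hE (fun i => ((S y i).1, (S y i).2.1, (S y i).2.2.1)) (fun i => (inv y hy i).1)
      (fun i => nest y hy i) _ (fun i => hα y hy i)
  -- weights
  have hwle : ∀ y ∈ Ico (0 : ℝ) 1, ∀ i, (S y i).2.2.1 ≤ w₀ * (1 / 2) ^ i := by
    intro y hy i
    induction i with
    | zero => simp [S0]
    | succ i ih =>
      obtain ⟨h1, h2, h3, h4⟩ := inv y hy i
      obtain ⟨k1, k2, k3, k4, k5⟩ := hM i _ _ _ h1 h2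
      have h5 : (S y (i + 1)).2.2.1 = (S y i).2.2.1 / (m y i : ℝ) := rfl
      have h6 : (2 : ℝ) ≤ (m y i : ℝ) := by exact_mod_cast k1
      rw [h5, pow_succ]
      calc (S y i).2.2.1 / (m y i : ℝ) ≤ (S y i).2.2.1 / 2 :=
            div_le_div_of_nonneg_left h2.le (by norm_num) h6
        _ ≤ (w₀ * (1 / 2) ^ i) / 2 := by linarith
        _ = _ := by ring
  -- agreement of the digits
  have agree : ∀ y ∈ Ico (0 : ℝ) 1, ∀ z ∈ Ico (0 : ℝ) 1, ∀ i, (∀ j < i, dg y j = dg z j) →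
      (S y i).1 = (S z i).1 ∧ (S y i).2.1 = (S z i).2.1 ∧ (S y i).2.2.1 = (S z i).2.2.1 ∧
      y - z = ((S y i).2.2.1 / w₀) * ((S y i).2.2.2 - (S z i).2.2.2) := by
    intro y hy z hz i
    induction i with
    | zero =>
      intro _
      refine ⟨rfl, rfl, rfl, ?_⟩
      simp only [S0]
      field_simp
    | succ i ih =>
      intro hj
      obtain ⟨e1, e2, e3, e4⟩ := ih fun j hji => hj j (by omega)
      have hdi := hj i (by omega)
      obtain ⟨h1, h2, h3, h4⟩ := inv y hy i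
      obtain ⟨k1, k2, k3, k4, k5⟩ := hM i _ _ _ h1 h2
      have hmm : m y i = m z i := by simp only [m, e1, e2, e3]
      have hMp : (0 : ℝ) < (m y i : ℝ) := Nat.cast_pos.2 (lt_of_lt_of_le Nat.zero_lt_two k1)
      have a1 : (S y (i + 1)).1 = l i (S y i).1 (S y i).2.1 (S y i).2.2.1 (dg y i) := rfl
      have a1' : (S z (i + 1)).1 = l i (S z i).1 (S z i).2.1 (S z i).2.2.1 (dg z i) := rfl
      have a2 : (S y (i + 1)).2.1 = r i (S y i).1 (S y i).2.1 (S y i).2.2.1 (dg y i) := rfl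
      have a2' : (S z (i + 1)).2.1 = r i (S z i).1 (S z i).2.1 (S z i).2.2.1 (dg z i) := rfl
      have a3 : (S y (i + 1)).2.2.1 = (S y i).2.2.1 / (m y i : ℝ) := rfl
      have a3' : (S z (i + 1)).2.2.1 = (S z i).2.2.1 / (m z i : ℝ) := rfl
      have a4 : (S y (i + 1)).2.2.2 = (m y i : ℝ) * (S y i).2.2.2 - (dg y i : ℝ) := rfl
      have a4' : (S z (i + 1)).2.2.2 = (m z i : ℝ) * (S z i).2.2.2 - (dg z i : ℝ) := rfl
      refine ⟨?_, ?_, ?_, ?_⟩
      · rw [a1, a1', e1, e2, e3, hdi]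
      · rw [a2, a2', e1, e2, e3, hdi]
      · rw [a3, a3', e3, hmm]
      · rw [a3, a4, a4', hdi, ← hmm, e4]
        field_simp
        ring
  -- the Hölder estimate, ordered form
  have key : ∀ y ∈ Ico (0 : ℝ) 1, ∀ z ∈ Ico (0 : ℝ) 1, ∀ i, (∀ j < i, dg y j = dg z j) →
      dg y i < dg z i → |y - z| ≤ (A / w₀) * |α y - α z| ^ s := by
    intro y hy z hz i hj hlt
    obtain ⟨e1, e2, e3, e4⟩ := agree y hy z hz i hj
    obtain ⟨h1, h2, h3, h4⟩ := inv y hy i
    obtain ⟨h1', h2', h3', h4'⟩ := inv z hz i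
    obtain ⟨k1, k2, k3, k4, k5⟩ := hM i _ _ _ h1 h2
    have hmm : m y i = m z i := by simp only [m, e1, e2, e3]
    have hMp : (0 : ℝ) < (m y i : ℝ) := Nat.cast_pos.2 (lt_of_lt_of_le Nat.zero_lt_two k1)
    set w := (S y i).2.2.1 with hw
    set γ := g i (S y i).1 (S y i).2.1 (S y i).2.2.1 with hγ
    have hdy := hdlt y hy i
    have hdz : dg z i < m y i := by rw [hmm]; exact hdlt z hz i
    have hgap := k4 (dg y i) (dg z i) hlt hdz
    have a2 : (S y (i + 1)).2.1 = r i (S y i).1 (S y i).2.1 (S y i).2.2.1 (dg y i) := rfl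
    have a1' : (S z (i + 1)).1 = l i (S y i).1 (S y i).2.1 (S y i).2.2.1 (dg z i) := by
      have : (S z (i + 1)).1 = l i (S z i).1 (S z i).2.1 (S z i).2.2.1 (dg z i) := rfl
      rw [this, ← e1, ← e2, ← e3]
    have hub := (hα y hy (i + 1)).2
    have hlb := (hα z hz (i + 1)).1
    rw [a2] at hub
    rw [a1'] at hlb
    set D : ℝ := (dg z i : ℝ) - (dg y i : ℝ) with hD
    have hD1 : 1 ≤ D := by
      have : (dg y i : ℝ) + 1 ≤ dg z i := by exact_mod_cast hlt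
      linarith
    have hDM : D ≤ (m y i : ℝ) := by
      have h5 : (dg z i : ℝ) ≤ m y i := by exact_mod_cast hdz.le
      have h6 : (0 : ℝ) ≤ dg y i := Nat.cast_nonneg _
      linarith
    have hfar : D * γ ≤ α z - α y := by
      have : D * γ ≤ l i (S y i).1 (S y i).2.1 (S y i).2.2.1 (dg z i) -
        r i (S y i).1 (S y i).2.1 (S y i).2.2.1 (dg y i) := hgap
      linarith
    have hfar' : D * γ ≤ |α y - α z| := by
      rw [abs_sub_comm]; exact hfar.trans (le_abs_self _)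
    -- the coordinates
    have hyz : |(S y i).2.2.2 - (S z i).2.2.2| ≤ 2 * D / (m y i : ℝ) := by
      have hx0 : 0 ≤ (m y i : ℝ) * (S y i).2.2.2 := mul_nonneg hMp.le h4.1
      have hz0 : 0 ≤ (m y i : ℝ) * (S z i).2.2.2 := mul_nonneg hMp.le h4'.1
      have f1 := Nat.floor_le hx0
      have f2 := Nat.lt_floor_add_one ((m y i : ℝ) * (S y i).2.2.2)
      have f3 : ((dg z i : ℕ) : ℝ) ≤ (m y i : ℝ) * (S z i).2.2.2 := by
        have := Nat.floor_le hz0
        have e : dg z i = ⌊(m y i : ℝ) * (S z i).2.2.2⌋₊ := by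
          simp only [dg, hmm]
        rw [e]; exact this
      have f4 : (m y i : ℝ) * (S z i).2.2.2 < (dg z i : ℝ) + 1 := by
        have := Nat.lt_floor_add_one ((m y i : ℝ) * (S z i).2.2.2)
        have e : dg z i = ⌊(m y i : ℝ) * (S z i).2.2.2⌋₊ := by
          simp only [dg, hmm]
        rw [e]; exact this
      have f1' : ((dg y i : ℕ) : ℝ) ≤ (m y i : ℝ) * (S y i).2.2.2 := f1
      have f2' : (m y i : ℝ) * (S y i).2.2.2 < (dg y i : ℝ) + 1 := f2
      have f5 : |(S y i).2.2.2 - (S z i).2.2.2| * (m y i : ℝ) =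
          |(m y i : ℝ) * (S y i).2.2.2 - (m y i : ℝ) * (S z i).2.2.2| := by
        rw [← mul_sub, abs_mul, abs_of_pos hMp, mul_comm]
      rw [le_div_iff₀ hMp, f5, abs_le]
      constructor
      · linarith
      · linarith
    have hDg : 0 ≤ D * γ := by positivity
    have hrat : D / (m y i : ℝ) ≤ (D / (m y i : ℝ)) ^ s := by
      have h5 : 0 < D / (m y i : ℝ) := by positivity
      have h6 : D / (m y i : ℝ) ≤ 1 := by rw [div_le_one hMp]; exact hDM
      calc D / (m y i : ℝ) = (D / (m y i : ℝ)) ^ (1 : ℝ) := (Real.rpow_one _).symm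
        _ ≤ _ := Real.rpow_le_rpow_of_exponent_ge h5 h6 hs1.le
    calc |y - z| = (w / w₀) * |(S y i).2.2.2 - (S z i).2.2.2| := by
          rw [e4, abs_mul, abs_of_pos (div_pos h2 hw₀)]
      _ ≤ (w / w₀) * (2 * D / (m y i : ℝ)) :=
          mul_le_mul_of_nonneg_left hyz (div_pos h2 hw₀).le
      _ = (2 * w) * (D / (m y i : ℝ)) / w₀ := by ring
      _ ≤ (A * ((m y i : ℝ) * γ) ^ s) * (D / (m y i : ℝ)) / w₀ := by
          apply div_le_div_of_nonneg_right _ hw₀.le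
          exact mul_le_mul_of_nonneg_right k5 (by positivity)
      _ ≤ (A * ((m y i : ℝ) * γ) ^ s) * (D / (m y i : ℝ)) ^ s / w₀ := by
          apply div_le_div_of_nonneg_right _ hw₀.le
          exact mul_le_mul_of_nonneg_left hrat (by positivity)
      _ = (A / w₀) * (((m y i : ℝ) * γ) * (D / (m y i : ℝ))) ^ s := by
          rw [Real.mul_rpow (x := (m y i : ℝ) * γ) (y := D / (m y i : ℝ)) (by positivity)
            (by positivity)]
          ring
      _ = (A / w₀) * (D * γ) ^ s := by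
          have : ((m y i : ℝ) * γ) * (D / (m y i : ℝ)) = D * γ := by field_simp
          rw [this]
      _ ≤ (A / w₀) * |α y - α z| ^ s :=
          mul_le_mul_of_nonneg_left (Real.rpow_le_rpow hDg hfar' hs.le) (div_pos hA hw₀).le
  have hb : ∀ y ∈ Ico (0 : ℝ) 1, ∀ z ∈ Ico (0 : ℝ) 1,
      |y - z| ≤ (A / w₀) * |α y - α z| ^ s := by
    intro y hy z hz
    by_cases hall : ∀ i, dg y i = dg z i
    · -- all digits agree: y = z
      have hlim : Filter.Tendsto (fun i : ℕ => ((1 : ℝ) / 2) ^ i) Filter.atTop (nhds 0) :=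
        tendsto_pow_atTop_nhds_zero_of_lt_one (by norm_num) (by norm_num)
      have hle : ∀ i : ℕ, |y - z| ≤ ((1 : ℝ) / 2) ^ i := by
        intro i
        obtain ⟨e1, e2, e3, e4⟩ := agree y hy z hz i fun j _ => hall j
        obtain ⟨h1, h2, h3, h4⟩ := inv y hy i
        obtain ⟨h1', h2', h3', h4'⟩ := inv z hz i
        rw [e4, abs_mul, abs_of_pos (div_pos h2 hw₀)]
        have h5 : |(S y i).2.2.2 - (S z i).2.2.2| ≤ 1 := by
          rw [abs_le]; constructor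
          · linarith [h4.1, h4'.2]
          · linarith [h4.2, h4'.1]
        have h6 := hwle y hy i
        have h7 : (S y i).2.2.1 / w₀ ≤ (1 / 2) ^ i := by
          rw [div_le_iff₀ hw₀]; linarith
        calc (S y i).2.2.1 / w₀ * |(S y i).2.2.2 - (S z i).2.2.2|
            ≤ (S y i).2.2.1 / w₀ * 1 := mul_le_mul_of_nonneg_left h5 (div_pos h2 hw₀).le
          _ ≤ _ := by rw [mul_one]; exact h7
      have h0 : |y - z| ≤ 0 := ge_of_tendsto' hlim hle
      exact h0.trans (mul_nonneg (div_pos hA hw₀).le (Real.rpow_nonneg (abs_nonneg _) _))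
    · have hex : ∃ i, dg y i ≠ dg z i := not_forall.1 hall
      have hne := Nat.find_spec hex
      have hmin : ∀ j < Nat.find hex, dg y j = dg z j := fun j hj => by
        have := Nat.find_min hex hj
        simpa using this
      rcases lt_or_gt_of_ne hne with hlt | hgt
      · exact key y hy z hz _ hmin hlt
      · have := key z hz y hy _ (fun j hj => (hmin j hj).symm) hgt
        rw [abs_sub_comm, abs_sub_comm (α y)]
        exact this
  exact (dim_of_inv_holder s (A / w₀) hs (div_pos hA hw₀).le α hb).trans (dimH_mono hαE)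

end Pool.Agent.Helper43.ML
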